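import Pool.Agent.MTX.Q5

/-!
# MP_c45d35_ag : finite generation of the Moore–Tachikawa rings of all semisimple groups

Let `G` be any connected semisimple complex algebraic group.  It is given by central isogenies
`p : M → Q` and `π : G → Q` of algebraic groups (`Q` for instance the adjoint group), where
`M = ∏_i M_i` is a finite product of groups `SL_n`, `SO_{2n+1}`, `Sp_{2n}`, `SO_{2n}`, `G_2` and
adjoint groups of type `E_6`, `E_7`, `E_8`, `F_4`.  Let `S` be the Kostant–Slodowy slice `e + 𝔤_f`,
the product of the slices of the `M_i`.  Then for every `b` the Moore–Tachikawa ring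
`ℂ[G^b × S]^K` of the regular functions on `G^b × S` that are invariant under
`(g_a) ↦ (g_a h_a)` for all `h_a ∈ Z_G(s)` with `∏ h_a = 1` is a finitely generated `ℂ`-algebra.
-/

namespace Pool.Agent.Results.MP_c45d35_ag.AllTypes

open Pool.Agent.MTX
open Pool.Agent.MTD (MT CentralIsogeny)

/-- `I` finite; `c i` the type of the factor `M_i` of `M = MG c = ∏ M_i`; `OM c` the regular
functions on `M`; `OG`, `OQ` the regular functions on `G` and `Q`; `p : M → Q` and `π : G → Q`
central isogenies; `OSl c` the regular functions on the slice `S = MS c`; `centG c p π s` the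
centraliser of `s ∈ S` in `G`.  The Moore–Tachikawa ring of `G` with `b` boundary circles is
finitely generated. -/
theorem result {I : Type} [Finite I] (c : I → Ty) {Q G : Type} [Group Q] [Group G]
    (OQ : Subalgebra ℂ (Q → ℂ)) (OG : Subalgebra ℂ (G → ℂ)) (p : MG c →* Q) (π : G →* Q)
    (hp : CentralIsogeny (OM c) OQ p) (hπ : CentralIsogeny OG OQ π) (hG : OG.FG) (b : ℕ) :
    (MT OG (OSl c) (centG c p π) b).FG :=
  mt_all c OQ OG p π hp hπ hG b

end Pool.Agent.Results.MP_c45d35_ag.AllTypes
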