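import Pool.Agent.TBM.Conic
import Pool.Agent.TBM.Stmt

/-!
# MP_17a657_ag (Tate conjecture for divisors): covers of the plane branched along a conic and a
quartic or a cubic

Let `e = 2` or `e = 3`, let `h` have the degree `2/(e-1)` and let `q, f ∈ k[x,y]` have the degrees
of `h^(e-1)` and `h^e` at most (that is, `2`, and `4` or `3`). The surface is
`X : φ(z) = f(x,y)/h^e, h^(e-1) = q(x,y)`, where `φ = z^N`, or `e = 2` and `φ` is additive: the
cyclic cover `z^n = f^(e-1)/q^e` of the plane, `n = (e-1) N`. Its function field is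
`K = k(x,y,h,z)`. Its level curves are `C : h^(e-1) = q, f = c h^e` in the space (`e = 2`: the plane
quartics `f = c q²` of genus three; `e = 3`: complete intersections of a quadric and a cubic, of
genus four).

Conditions at infinity. `e = 2`: `f = 0` has no singular point at infinity on `q = 0`. `e = 3`:
the line at infinity is a tangent of the conic, i.e. `q = x² - 4 y` in suitable coordinates, and
the point of contact is not on `f = 0` (in characteristic three also a condition on one more
coefficient).

Let `(P,z)`, `P = (x,y,h)`, be a generic point of `X` with coordinates in an algebraic closure `M`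
of `K`, such that its level curve `C` is smooth and irreducible. Then the divisor `3 P + ∑ Q` is
principal on `C`, where `Q` runs through at least five points such that the 0-cycle `P + Q` and `z`
are defined over a field `L_Q` generated by two function fields of curves; and the Tate conjecture
for divisors holds for `X` if it holds for (the surfaces with the function fields) `L_Q`.

Idea. (1) The surfaces `f + u h q + w h^e = 0` in the (weighted) projective space with coordinates
`x, y, h` are del Pezzo surfaces of degree two (`e = 2`) or three (`e = 3`). With `G = f - c h^e`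
and its polar forms, `H(Q) = h(Q) G(P,..,P,Q) - h(P) G(P,Q,..,Q)` meets `C` in `3 P + ∑ Q`, and
the condition `H(Q) = 0` says that the line through `P` and `Q` gives a curve of degree one on one
of these surfaces (for `e = 2`, the line is a bitangent of the branch curve of the double plane;
for `e = 3`, it is a line on the cubic surface). These curves form an algebraic curve (`K₁`), and
`K₂` is the function field of `v^2 = 1 - u^N` (`e = 2`), `v^N = u - u^3` (`e = 3`).
(2) An element of `T_ℓ Br(K k^s)` which is unramified over `k` is given by cocycles `a` of the group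
of `A / k^s(z)`, `A` an algebraic closure of `k(z)`, with values in the functions on the curve `C`
over `A` (Tsen). Weil reciprocity for `a` and `H` shows that `3 a + ∑ a(Q)` is a multiple of a
cocycle with values in `A`, which is trivial. The sums `a + a(Q)` are norms, unramified over `k`,
and they are trivial by the Tate conjecture for `L_Q`. So `(3 - s) a` is trivial.
-/

namespace Pool.Agent.Results.MP_17a657_ag.ConicBranch

open Polynomial Pool.Agent.TQU Pool.Agent.TCB Pool.Agent.TBM

universe u

theorem result (k M : Type u) [Field k] [Field M] [Algebra k M] [IsAlgClosed M]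
    (hk : (2 : k) ≠ 0) (e : ℕ) (he : e = 2 ∨ e = 3) (f q : MvPolynomial (Fin 2) k)
    (hf : (e - 1) * f.totalDegree ≤ 2 * e) (hq : q.totalDegree ≤ 2) (hq0 : q ≠ 0)
    (φ : k[X]) (hφ : (∃ N, 0 < N ∧ φ = X ^ N) ∨ (e = 2 ∧ AddPoly φ ∧ φ ≠ 0))
    (P : Fin 3 → M) (hP : AlgebraicIndependent k ![P 0, P 1]) (z : M)
    (hPq : P 2 ^ (e - 1) = MvPolynomial.aeval ![P 0, P 1] q)
    (hz : aeval z φ * P 2 ^ e = MvPolynomial.aeval ![P 0, P 1] f)
    (h2 : e = 2 → ∀ δ : Fin 2 → M, δ ≠ 0 →
      (lin q ![P 0, P 1] δ).natDegree = 2 ∨ ∃ P' : Fin 2 → M, 3 ≤ (lin f P' δ).natDegree)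
    (h3 : e = 3 → q = MvPolynomial.X 0 ^ 2 - 4 * MvPolynomial.X 1 ∧
      MvPolynomial.coeff (Finsupp.single 1 3) f ≠ 0 ∧
      ((3 : k) ≠ 0 ∨ MvPolynomial.coeff (Finsupp.single 0 1 + Finsupp.single 1 2) f ≠ 0))
    (hsm : IsDedekindDomain (MvPolynomial (Fin 3) M ⧸ levelIdeal e f q (aeval z φ)))
    (K : IntermediateField k M) (hK : K = IntermediateField.adjoin k ({z} ∪ Set.range P))
    (hM : ∀ x : M, IsAlgebraic K x) :
    ∃ (s : Multiset (Fin 3 → M)) (K₁ K₂ : (Fin 3 → M) → IntermediateField k M), 5 ≤ s.card ∧
      (∀ Q ∈ s, Q 2 ^ (e - 1) = MvPolynomial.aeval ![Q 0, Q 1] q ∧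
        MvPolynomial.aeval ![Q 0, Q 1] f = aeval z φ * Q 2 ^ e ∧ Over z P Q (K₁ Q) (K₂ Q)) ∧
      ((pt (levelIdeal e f q (aeval z φ)) P) ^ 3
        * (s.map (pt (levelIdeal e f q (aeval z φ)))).prod).IsPrincipal ∧
      Reduces s K₁ K₂ K := by
  obtain ⟨s, K₁, K₂, h4, h5, h6, h7⟩ := Pool.Agent.TBR.conic_full k M hk e he f q hf hq hq0 φ hφ P
    hP z hPq hz h2 h3 hsm K hK hM
  refine ⟨s, K₁, K₂, h4, fun Q hQ => ?_, h6, h7⟩
  obtain ⟨h8, h9⟩ := h5 Q hQ
  obtain ⟨h10, h11⟩ := mem_level_iff _ _ _ _ _ h8
  exact ⟨h10, h11, h9⟩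

end Pool.Agent.Results.MP_17a657_ag.ConicBranch
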