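import Pool.Agent.AK.Exact
import Pool.Agent.MP_0af329_co.CvxTop

/-!
# MP_0af329_co: the exact minimum of the number of non-acute angles for points in convex position
-/

set_option autoImplicit false

namespace Pool.Agent.Variants.ConvexExact0af329

open Pool.Agent.MP_0af329_co Pool.Agent.MP_0af329_co.Cvx Filter Topology

/-- `m(m-1)(2m-1)`, `m²(2m-1)`, `m²(2m+1)` for `n = 3m, 3m+1, 3m+2` (Turán's numbers for (4, 3)). -/
def T4 (n : ℕ) : ℕ :=
  if n % 3 = 0 then (n / 3) * (n / 3 - 1) * (2 * (n / 3) - 1)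
  else if n % 3 = 1 then (n / 3) ^ 2 * (2 * (n / 3) - 1)
  else (n / 3) ^ 2 * (2 * (n / 3) + 1)

/-- For every `n`, the smallest number of ordered triples with angle at least `π/2`, over all sets of
`n` points in convex position without three collinear points, is `2 T4 n`; and the smallest
proportion of angles greater than `π/2` over these sets tends to `4/27`. -/
theorem result :
    (∀ n : ℕ, IsLeast {k : ℕ | ∃ S : Finset Pt, S.card = n ∧ GenPos S ∧ ConvexPos S ∧
      cnt S (Set.Ici (Real.pi / 2)) = k} (2 * T4 n)) ∧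
    Tendsto (fun n : ℕ => (minCntC n (Set.Ioi (Real.pi / 2)) : ℝ) /
      ((n : ℝ) * ((n : ℝ) - 1) * ((n : ℝ) - 2))) atTop (𝓝 (4 / 27)) := by
  refine ⟨fun n => ?_, tendsto_minCntC⟩
  obtain ⟨S, h1, h2, h3, h4⟩ := Pool.Agent.AK.exists_convex_exact n
  have h5 := Pool.Agent.AK.le_cnt_convex S h2 h3
  rw [h1] at h5
  refine ⟨⟨S, h1, h2, h3, le_antisymm h4 h5⟩, ?_⟩
  rintro k ⟨S', k1, k2, k3, rfl⟩
  have h6 := Pool.Agent.AK.le_cnt_convex S' k2 k3
  rw [k1] at h6
  exact h6

end Pool.Agent.Variants.ConvexExact0af329
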