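import Pool.Agent.MP_0af329_co.CvxTop

/-!
# MP_0af329_co: `F(π/2) = 4/27` for points in convex position
-/

set_option autoImplicit false

namespace Pool.Agent.Variants.ConvexHalf0af329

open Pool.Agent.MP_0af329_co Pool.Agent.MP_0af329_co.Cvx Filter Topology

/-- Every set `S` of `n` points in convex position, no three collinear, has at least
`(4/27) n³ - 7 n²` ordered triples whose angle is greater than `π/2`; for every `m ≥ 1` some set of
`n = 3m` points in convex position has at most `(4/27) n³` such triples; so the smallest proportion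
of angles greater than `π/2` over all `n`-point sets in convex position tends to `4/27`. -/
theorem result :
    (∀ S : Finset Pt, GenPos S → ConvexPos S →
      4 / 27 * (S.card : ℝ) ^ 3 - 7 * (S.card : ℝ) ^ 2 ≤ cnt S (Set.Ioi (Real.pi / 2))) ∧
    (∀ m : ℕ, 1 ≤ m → ∃ S : Finset Pt, S.card = 3 * m ∧ GenPos S ∧ ConvexPos S ∧
      (cnt S (Set.Ioi (Real.pi / 2)) : ℝ) ≤ 4 / 27 * (3 * (m : ℝ)) ^ 3) ∧
    Tendsto (fun n : ℕ => (minCntC n (Set.Ioi (Real.pi / 2)) : ℝ) /
      ((n : ℝ) * ((n : ℝ) - 1) * ((n : ℝ) - 2))) atTop (𝓝 (4 / 27)) :=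
  ⟨cnt_ge_convex, exists_convex, tendsto_minCntC⟩

end Pool.Agent.Variants.ConvexHalf0af329
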