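import Pool.Agent.AK.Exact
import Pool.Agent.MP_0af329_co.CvxTop
import Pool.Agent.MP_0af329_co.CF10

/-!
# MP_0af329_co: the problem for points in convex position

Claim file kept here (not a hand-in; see departures/helper8.md):

Proves: For sets of n points in convex position (none in the convex hull of the others) the analogues FC, GC of the limits F, G exist for every angle. GC = 1/k - 1/(3k^2) on [pi/(k+1), pi/k) for every k >= 1, with the exact minimum 2 Tk(n) for every n inside, and the discontinuities of GC in (0,pi) are exactly pi/k, k >= 2. FC(pi/2) = 4/27, with the exact minimum 2 T4(n) for angles >= pi/2; FC = 1/(3k^2) on (pi - pi/k, pi - 2pi/(2k+1)] for every k >= 1; FC is discontinuous at pi - 2pi/m for every m >= 3.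
Definitions: cnt S A: ordered triples of distinct points of S with angle at the middle point in A. minCntC n A: minimum of cnt over n-sets in convex position. ratioC = minCntC/(n(n-1)(n-2)); FC(a), GC(a): its limit for A = (a,inf), (-inf,a). Tk k n: sum of C(w,2)(n-w) + 2C(w,3) over k nearly equal parts w of n. T4: Turan numbers m(m-1)(2m-1), m^2(2m-1), m^2(2m+1).
Relation: Partial: Q1, Q2 for convex position only; there G is settled, F(pi/2) too, other jumps of FC are open. The values are those of the best known examples for F, G. Proof: corners with few points inside are counted by two chains of corners in a triangle (angle sum pi); for F: subpolygons, and (A): at most 3C(n-k,3) acute corners have >= k points inside. Known (CCEG 1979): limits, pi/3, the bound 4/27. New as far as I know.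
-/

set_option autoImplicit false

namespace Pool.Agent.Variants.ConvexPosition0af329

open Pool.Agent.MP_0af329_co Pool.Agent.MP_0af329_co.Cvx Filter Topology

/-- The limits `FC` and `GC`, the analogues of `F` and `G` for points in convex position, exist.
`GC = 1/k - 1/(3k²)` on `[π/(k+1), π/k)` for every `k ≥ 1`, with the exact minimum `2 Tk k n` for
every `n` in the open interval; the discontinuities of `GC` in `(0, π)` are exactly the numbers
`π/k`, `k ≥ 2`.  `FC (π/2) = 4/27`, with the exact minimum `2 T4 n` for angles at least `π/2`;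
`FC = 1/(3k²)` on `(π - π/k, π - 2π/(2k+1)]` for every `k ≥ 1`, and `FC` is discontinuous at
`π - 2π/m` for every `m ≥ 3`. -/
theorem result :
    ((∀ α : ℝ, Tendsto (fun n : ℕ => ratioC n (Set.Ioi α)) atTop (𝓝 (FC α))) ∧
      (∀ α : ℝ, Tendsto (fun n : ℕ => ratioC n (Set.Iio α)) atTop (𝓝 (GC α)))) ∧
    (∀ k : ℕ, 1 ≤ k →
      (∀ α : ℝ, Real.pi / (k + 1) ≤ α → α < Real.pi / k →
        GC α = 1 / (k : ℝ) - 1 / (3 * (k : ℝ) ^ 2)) ∧
      (∀ α : ℝ, Real.pi / (k + 1) < α → α < Real.pi / k →
        ∀ n : ℕ, minCntC n (Set.Iio α) = 2 * CG.Tk k n)) ∧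
    {α : ℝ | 0 < α ∧ α < Real.pi ∧ ¬ ContinuousAt GC α} =
      {α : ℝ | ∃ k : ℕ, 2 ≤ k ∧ α = Real.pi / k} ∧
    (FC (Real.pi / 2) = 4 / 27 ∧
      ∀ n : ℕ, minCntC n (Set.Ici (Real.pi / 2)) = 2 * Pool.Agent.AK.T4 n) ∧
    (∀ k : ℕ, 1 ≤ k → ∀ α : ℝ, Real.pi - Real.pi / k < α →
      α ≤ Real.pi - 2 * Real.pi / (2 * k + 1) → FC α = 1 / (3 * (k : ℝ) ^ 2)) ∧
    (∀ m : ℕ, 3 ≤ m → ¬ ContinuousAt FC (Real.pi - 2 * Real.pi / m)) :=
  ⟨⟨fun _ => tendsto_ratioC _, fun _ => tendsto_ratioC _⟩,
    fun _ hk => ⟨fun _ h1 h2 => GC_eq hk h1 h2, fun _ h1 h2 n => minCntC_Iio hk n h1 h2⟩,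
    GC_discontinuities,
    ⟨tendsto_nhds_unique (tendsto_ratioC (Set.Ioi (Real.pi / 2))) tendsto_minCntC,
      Pool.Agent.AK.minCntC_eq⟩,
    fun k hk _ h1 h2 => FC_eq k hk h1 h2,
    FC_discontinuous⟩

end Pool.Agent.Variants.ConvexPosition0af329
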