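import Pool.Agent.MP_0af329_co.Final

/-!
# MP_0af329_co: `F` is discontinuous at `π/2`
-/

set_option autoImplicit false

namespace Pool.Agent.Variants.FJump0af329

open Pool.Agent.MP_0af329_co Filter Topology

/-- For every `α` the limit `F(α)` exists; for `π/2 < α < π`,
`1/12 - |cos α|/3 ≤ F(α) ≤ 1/12`, so `F(α) → 1/12` as `α ↓ π/2`; and `F(π/2) ≥ 1/10`.  So `F` is
discontinuous at `π/2`. -/
theorem result :
    (∀ α : ℝ, Tendsto (fun n : ℕ => ratio n (Set.Ioi α)) atTop (𝓝 (F α))) ∧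
    (∀ α : ℝ, Real.pi / 2 < α → α < Real.pi →
      1 / 12 - |Real.cos α| / 3 ≤ F α ∧ F α ≤ 1 / 12) ∧
    (∀ k : ℕ, 1 ≤ k → ∀ α : ℝ, Real.pi - Real.pi / k < α → F α ≤ 1 / (3 * (k : ℝ) ^ 2)) ∧
    Tendsto F (𝓝[>] (Real.pi / 2)) (𝓝 (1 / 12)) ∧
    1 / 10 ≤ F (Real.pi / 2) ∧
    ¬ ContinuousAt F (Real.pi / 2) := by
  refine ⟨fun α => tendsto_ratio _, fun α h1 h2 => ⟨le_dens_Ioi α h1 h2, ?_⟩, F_le,
    tendsto_F_half, tenth_le_dens, not_continuousAt_F_half⟩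
  have := F_le 2 (by norm_num) α (by push_cast; linarith)
  norm_num at this
  linarith

end Pool.Agent.Variants.FJump0af329
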