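import Pool.Agent.MP_0af329_co.Asy

/-!
# MP_0af329_co: bounds for `G` at every `α`, and its order at `0`
-/

set_option autoImplicit false

namespace Pool.Agent.Variants.GBounds0af329

open Pool.Agent.MP_0af329_co Filter Topology

/-- For every integer `m ≥ 2` and `α ≥ π/m`: `1/(2m) + (m/6) sin² (π/(2m)) ≤ G(α)`.  For every
integer `k ≥ 1` and `α < π/k`: `G(α) ≤ 1/k - 1/(3k²)`.  Near `0`, `G(α)` is between
`(1/2 + π²/24 - o(1)) α/π` and `(1 + o(1)) α/π`. -/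
theorem result :
    (∀ α : ℝ, Tendsto (fun n : ℕ => ratio n (Set.Iio α)) atTop (𝓝 (G α))) ∧
    (∀ m : ℕ, 2 ≤ m → ∀ α : ℝ, Real.pi / m ≤ α →
      1 / (2 * (m : ℝ)) + (m : ℝ) / 6 * Real.sin (Real.pi / (2 * m)) ^ 2 ≤ G α) ∧
    (∀ k : ℕ, 1 ≤ k → ∀ α : ℝ, α < Real.pi / k → G α ≤ 1 / (k : ℝ) - 1 / (3 * (k : ℝ) ^ 2)) ∧
    (∀ c : ℝ, c < 1 / 2 + Real.pi ^ 2 / 24 →
      ∀ᶠ α in 𝓝[>] (0 : ℝ), c * (α / Real.pi) ≤ G α) ∧
    (∀ C : ℝ, 1 < C → ∀ᶠ α in 𝓝[>] (0 : ℝ), G α ≤ C * (α / Real.pi)) :=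
  ⟨fun _ => tendsto_ratio _, fun _ hm _ hα => le_G_pd hm hα, fun k hk α hα => G_le k hk α hα,
    fun _ => eventually_le_G, fun _ => eventually_G_le⟩

end Pool.Agent.Variants.GBounds0af329
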