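import Pool.Agent.MP_0af329_co.Jump

/-!
# MP_0af329_co: `G` is discontinuous at `π/m` for `2 ≤ m ≤ 14`
-/

set_option autoImplicit false

namespace Pool.Agent.Variants.GJumps0af329

open Pool.Agent.MP_0af329_co Filter Topology

/-- `G` is discontinuous at `π/m` for every integer `2 ≤ m ≤ 14`.  Moreover, for every pair
`(k, v)` of the list, `v/10000 ≤ G ≤ 1/k - 1/(3k²)` on `[π/(k+1), π/k)`. -/
theorem result :
    (∀ α : ℝ, Tendsto (fun n : ℕ => ratio n (Set.Iio α)) atTop (𝓝 (G α))) ∧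
    (∀ m : ℕ, 2 ≤ m → m ≤ 14 → ¬ ContinuousAt G (Real.pi / (m : ℝ))) ∧
    (∀ p ∈ ([(3, 2924), (4, 2230), (5, 1798), (6, 1506), (7, 1293), (8, 1132), (9, 1007),
        (10, 907), (11, 826), (12, 757), (13, 699)] : List (ℕ × ℕ)),
      ∀ α : ℝ, Real.pi / ((p.1 : ℝ) + 1) ≤ α → α < Real.pi / (p.1 : ℝ) →
        (p.2 : ℝ) / 10000 ≤ G α ∧ G α ≤ 1 / (p.1 : ℝ) - 1 / (3 * (p.1 : ℝ) ^ 2)) := by
  refine ⟨fun α => tendsto_ratio _, discont_G_le, fun p hp α h1 h2 => ?_⟩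
  refine ⟨le_G_table (k := p.1) (v := p.2) hp h1, G_le p.1 ?_ α h2⟩
  simp only [List.mem_cons, List.not_mem_nil, or_false] at hp
  rcases hp with rfl | rfl | rfl | rfl | rfl | rfl | rfl | rfl | rfl | rfl | rfl <;> norm_num

end Pool.Agent.Variants.GJumps0af329
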