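import Pool.Agent.MP_0af329_co.QFin2
import Pool.Agent.MP_0af329_co.Jump

/-!
# MP_0af329_co: the discontinuities of `G`: exactly known on `[π/4, π)`, and `π/m` for `m ≤ 14`

Claim file kept here (not a hand-in; see departures/helper8.md):

Proves: For every real a the limit G(a) exists. G(a) = 8/27 for pi/4 <= a < pi/3, G(a) = 5/12 for pi/3 <= a < pi/2, G(a) = 2/3 for pi/2 <= a < pi, and the set of a in [pi/4, pi) at which G is not continuous is exactly {pi/4, pi/3, pi/2}. G is not continuous at pi/m for every integer m with 2 <= m <= 14. G(a) <= 1/k - 1/(3k^2) for a < pi/k (all k >= 1), and G(a) >= v_k/10000 for a >= pi/(k+1), where (v_4, ..., v_13) = (2230, 1798, 1506, 1293, 1132, 1007, 907, 826, 757, 699).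
Definitions: cnt S A: number of ordered triples (x,y,z) of distinct points of the planar set S with angle at y in A (each angle is counted twice; n(n-1)(n-2) = 2N triples). minCnt n A: its minimum over n-point sets S with no three collinear points (GenPos). ratio n A = minCnt n A / (n(n-1)(n-2)). G(a) = lim ratio n (-infinity,a), i.e. lim g(n,a)/N.
Relation: Part of Q2 (G): all discontinuities on [pi/4, pi), ten more below; it says nothing about Q1, F, or other discontinuities below pi/4. Known (CCEG 1979): the limits exist, G = 2/3 on (pi/2, pi). Proof: G >= 8/27 by a semidefinite (flag algebra) certificate on five points with geometric exclusions; v_k by three-point positive semidefinite certificates for the directions at a vertex; upper bounds by clusters on a circle. New as far as I know.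
-/

set_option autoImplicit false

namespace Pool.Agent.Variants.GLimit0af329

open Pool.Agent.MP_0af329_co Filter Topology

/-- For every `α` the limit `G(α)` exists; `G = 8/27` on `[π/4, π/3)`, `G = 5/12` on `[π/3, π/2)`,
`G = 2/3` on `[π/2, π)`; the discontinuities of `G` in `[π/4, π)` are exactly `π/4`, `π/3`, `π/2`.
`G` is also discontinuous at `π/m` for `5 ≤ m ≤ 14`.  `G ≤ 1/k - 1/(3k²)` below `π/k` for every
`k ≥ 1`, and for every pair `(k, v)` of the list `G ≥ v/10000` from `π/(k+1)` on. -/
theorem result :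
    (∀ α : ℝ, Tendsto (fun n : ℕ => ratio n (Set.Iio α)) atTop (𝓝 (G α))) ∧
    (∀ α : ℝ, Real.pi / 4 ≤ α → α < Real.pi / 3 → G α = 8 / 27) ∧
    (∀ α : ℝ, Real.pi / 3 ≤ α → α < Real.pi / 2 → G α = 5 / 12) ∧
    (∀ α : ℝ, Real.pi / 2 ≤ α → α < Real.pi → G α = 2 / 3) ∧
    {α : ℝ | Real.pi / 4 ≤ α ∧ α < Real.pi ∧ ¬ ContinuousAt G α} =
      {Real.pi / 4, Real.pi / 3, Real.pi / 2} ∧
    (∀ m : ℕ, 2 ≤ m → m ≤ 14 → ¬ ContinuousAt G (Real.pi / (m : ℝ))) ∧
    (∀ k : ℕ, 1 ≤ k → ∀ α : ℝ, α < Real.pi / (k : ℝ) →
      G α ≤ 1 / (k : ℝ) - 1 / (3 * (k : ℝ) ^ 2)) ∧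
    (∀ p ∈ ([(4, 2230), (5, 1798), (6, 1506), (7, 1293), (8, 1132), (9, 1007), (10, 907),
        (11, 826), (12, 757), (13, 699)] : List (ℕ × ℕ)),
      ∀ α : ℝ, Real.pi / ((p.1 : ℝ) + 1) ≤ α → (p.2 : ℝ) / 10000 ≤ G α) := by
  have hpi := Real.pi_pos
  refine ⟨fun α => tendsto_ratio _, Q5.G_quarter_eq, G_third, G_half, ?_, discont_G_le,
    fun k hk α h => G_le k hk α h, fun p hp α h1 => ?_⟩
  · ext α
    simp only [Set.mem_setOf_eq, Set.mem_insert_iff, Set.mem_singleton_iff]
    constructor
    · rintro ⟨h1, h2, h3⟩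
      by_cases h4 : Real.pi / 3 ≤ α
      · exact Or.inr ((discont_G α h4 h2).1 h3)
      · left
        by_contra h5
        apply h3
        have h6 : Real.pi / 4 < α := lt_of_le_of_ne h1 (Ne.symm h5)
        have h7 : G =ᶠ[𝓝 α] fun _ => 8 / 27 := by
          filter_upwards [Ioo_mem_nhds h6 (not_le.1 h4)] with x hx
          exact Q5.G_quarter_eq x hx.1.le hx.2
        exact (continuousAt_const).congr h7.symm
    · intro h
      rcases h with rfl | h
      · exact ⟨le_rfl, by linarith, not_continuousAt_G_quarter⟩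
      · have h1 : Real.pi / 3 ≤ α ∧ α < Real.pi := by
          rcases h with rfl | rfl <;> constructor <;> linarith
        exact ⟨by linarith [h1.1], h1.2, (discont_G α h1.1 h1.2).2 h⟩
  · refine le_G_table (k := p.1) (v := p.2) ?_ h1
    simp only [List.mem_cons, List.not_mem_nil, or_false] at hp
    rcases hp with rfl | rfl | rfl | rfl | rfl | rfl | rfl | rfl | rfl | rfl <;> decide

end Pool.Agent.Variants.GLimit0af329
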