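import Mathlib
import Pool.Agent.SVP.Fin

namespace Pool.Agent.Results.MP_2f88e5_nt.PowerSavingPrimes

/-- There are `c, η, δ, C > 0` such that for every real `X ≥ 2` all the odd primes `p ≤ X`, except at most
`C X^(1-δ)` of them, have this property: for every real `K` with `p^(1-η) ≤ K < 2(p+1)` at least `c K / log p`
of the integers `1 ≤ k ≤ K` prime to `p` are such that `2kp + 1` is a prime. -/
theorem result : ∃ c η δ C : ℝ, 0 < c ∧ 0 < η ∧ 0 < δ ∧ 0 < C ∧ ∀ X : ℝ, 2 ≤ X →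
    ({p : ℕ | p.Prime ∧ p ≠ 2 ∧ (p : ℝ) ≤ X ∧
      ¬ ∀ K : ℝ, (p : ℝ) ^ (1 - η) ≤ K → K < 2 * (p + 1) →
        c * K / Real.log p ≤
          ({k : ℕ | 1 ≤ k ∧ (k : ℝ) ≤ K ∧ ¬ p ∣ k ∧ (2 * k * p + 1).Prime}.ncard : ℝ)}.ncard : ℝ) ≤
      C * X ^ (1 - δ) := by
  obtain ⟨c, η, δ, C, hc, hη, hδ, hC, h⟩ := Pool.Agent.SVP.fin
  refine ⟨c, η, δ, C, hc, hη, hδ, hC, fun X hX => ?_⟩
  obtain ⟨B, hB, hp⟩ := h X hX
  refine le_trans ?_ hB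
  rw [← Set.ncard_coe_finset B]
  have hsub : {p : ℕ | p.Prime ∧ p ≠ 2 ∧ (p : ℝ) ≤ X ∧
      ¬ ∀ K : ℝ, (p : ℝ) ^ (1 - η) ≤ K → K < 2 * (p + 1) →
        c * K / Real.log p ≤
          ({k : ℕ | 1 ≤ k ∧ (k : ℝ) ≤ K ∧ ¬ p ∣ k ∧ (2 * k * p + 1).Prime}.ncard : ℝ)} ⊆ (B : Set ℕ) := by
    intro p hpp
    obtain ⟨h1, h2, h3, h4⟩ := hpp
    by_contra h5
    apply h4
    intro K hK1 hK2
    have h6 := hp p h1 h2 h3 (fun h => h5 (Finset.mem_coe.2 h)) K hK1 hK2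
    have hK0 : 0 ≤ K := le_trans (Real.rpow_nonneg (Nat.cast_nonneg p) _) hK1
    have h7 : {k : ℕ | 1 ≤ k ∧ (k : ℝ) ≤ K ∧ ¬ p ∣ k ∧ (2 * k * p + 1).Prime} =
        (((Finset.Icc 1 ⌊K⌋₊).filter (fun k : ℕ => ¬ p ∣ k ∧ (2 * k * p + 1).Prime) : Finset ℕ) : Set ℕ) := by
      ext k
      simp only [Set.mem_ofPred_eq, Finset.coe_filter, Finset.mem_Icc]
      rw [Nat.le_floor_iff hK0]
      tauto
    rw [h7, Set.ncard_coe_finset]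
    exact h6
  exact_mod_cast Set.ncard_le_ncard hsub B.finite_toSet

end Pool.Agent.Results.MP_2f88e5_nt.PowerSavingPrimes
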