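import Pool.Agent.EPK.X3

/-!
# Almost every class modulo `p` is a prime times a product of at most `k` primes

For every `k ≥ 3` and every large prime `p` all but at most `p^(2/(k - 9/10))`
of the classes `1 ≤ x < p` are `q m` modulo `p` with a prime `q < p` and a
squarefree `m < p` with at most `k` prime factors.
-/

set_option autoImplicit false

namespace Pool.Agent.Results.MP_de0709_nt.PrimeThree

theorem result (k : ℕ) (hk : 3 ≤ k) : ∃ p₀ : ℕ, ∀ p : ℕ, p.Prime → p₀ ≤ p →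
    (Set.ncard {x : ℕ | 1 ≤ x ∧ x < p ∧ ¬ ∃ q m : ℕ, q.Prime ∧ q < p ∧ 0 < m ∧ m < p ∧
      Squarefree m ∧ ArithmeticFunction.cardFactors m ≤ k ∧ q * m ≡ x [MOD p]} : ℝ) ≤
      (p : ℝ) ^ (2 / ((k : ℝ) - 9 / 10)) :=
  Pool.Agent.EPK.prime_times_Pk k hk

end Pool.Agent.Results.MP_de0709_nt.PrimeThree
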