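import Pool.Agent.TE.Base3
import Pool.Agent.TE.V18

set_option autoImplicit false

open scoped Classical Polynomial

namespace Pool.Agent.Variants.QuadraticResidues17a657

open TE

theorem result {k : Type*} [Field k] {Ω : Type*} [Field Ω] [Algebra k Ω] [Algebra (RatFunc k) Ω]
    [IsScalarTower k (RatFunc k) Ω] [IsSepClosure (RatFunc k) Ω] (d : Dat k) (hcop : IsCoprime d.A d.B)
    (γ : Gm k Ω) (hγ : FixRts d γ) (hs : Star d γ) (j : ℕ) (hj : 0 < j)
    (f : ℕ → Gm k Ω → d.C.Pt Ω) (hf : Sys d.C f) (hinv : FixBy d.C (γ ^ j) f) (n : ℕ) :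
    ∃ R : d.C.Pt Ω, (2 ^ (n + 1) : ℕ) • R = 0 ∧ ∀ g ∈ NN k Ω, f n g = d.C.act g R - R :=
  star_trivial d hcop hγ hs j hj f hf hinv n

end Pool.Agent.Variants.QuadraticResidues17a657
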