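import Pool.Agent.MP_410f3c_al.Main

/-!
# MP_410f3c_al: the Factorial Conjecture for polynomials with a simplicial initial part
-/

set_option autoImplicit false

open MvPolynomial

/-- Let `f` be a complex polynomial in `n ≥ 1` variables all of whose monomials have `w`-weight at
least `d`, where the `w i` are positive integers with `∑ w i ≤ d`; let `g` be obtained from `f` by
a polynomial substitution `φ` fixing the origin, and suppose that there is exactly one system of
rational numbers `μ_s ≥ 0`, supported on the exponents `s` of the monomials of `g`, such that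
`∑ μ_s s = (1, …, 1)` and `d ∑ μ_s = ∑ w i`. Then `L (f ^ m) ≠ 0` for infinitely many `m`. -/
theorem Pool.Agent.Results.MP_410f3c_al.SimplicialFace.result :
    ∀ n : ℕ, 0 < n → ∀ L : MvPolynomial (Fin n) ℂ → ℂ,
      (∀ p : MvPolynomial (Fin n) ℂ,
        L p = ∑ s ∈ p.support, MvPolynomial.coeff s p * ∏ i : Fin n, ((s i).factorial : ℂ)) →
      ∀ (f : MvPolynomial (Fin n) ℂ) (φ : Fin n → MvPolynomial (Fin n) ℂ)
        (w : Fin n → ℕ) (d : ℕ),
        (∀ i, 0 < w i) → ∑ i, w i ≤ d →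
        (∀ s ∈ f.support, d ≤ ∑ i, w i * s i) →
        (∀ i, MvPolynomial.constantCoeff (φ i) = 0) →
        (∃! μ : (Fin n →₀ ℕ) → ℚ,
          (∀ s, 0 ≤ μ s) ∧
          (∀ s, s ∉ (MvPolynomial.aeval φ f).support → μ s = 0) ∧
          (∀ i, ∑ s ∈ (MvPolynomial.aeval φ f).support, μ s * (s i : ℚ) = 1) ∧
          (d : ℚ) * ∑ s ∈ (MvPolynomial.aeval φ f).support, μ s = ((∑ i, w i : ℕ) : ℚ)) →
        ∀ M : ℕ, ∃ m : ℕ, M ≤ m ∧ L (f ^ m) ≠ 0 := by
  intro n hn L hL f φ w d hw hd hf hφ hμ M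
  obtain ⟨m, hm, hne⟩ := Pool.Agent.MP_410f3c_al.main hn f φ w d hw hd hf hφ hμ M
  refine ⟨m, hm, ?_⟩
  rw [hL]
  exact hne
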