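import Pool.Agent.RGS.C7

/-!
# Small summands of syzygies and the first Tachikawa conjecture (MP_68f647_al)

Let `X` be a finitely generated module over a finite-dimensional algebra `A` with
`Ext^i(X, X) = 0` and `Ext^i(X, A) = 0` for all `i ≥ 1`. For every `d` only finitely many syzygies
of `X` have a non-projective direct summand which is generated by `d` elements.
-/

set_option autoImplicit false

open CategoryTheory

namespace Pool.Agent.Results.MP_68f647_al.SmallSummands

/-- `L` is a syzygy of `M`: there is an exact sequence `0 → L → P → M → 0` with `P` finitely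
generated projective -/
def Syz (A : Type) [Ring A] (M L : Type) [AddCommGroup M] [Module A M] [AddCommGroup L]
    [Module A L] : Prop :=
  ∃ (P : ModuleCat.{0} A) (i : L →ₗ[A] P) (p : P →ₗ[A] M), Module.Projective A P ∧
    Module.Finite A P ∧ Function.Injective i ∧ Function.Surjective p ∧
    LinearMap.range i = LinearMap.ker p

/-- `N` is a cosyzygy of `M`: there is an exact sequence `0 → M → I → N → 0` with `I` finitely
generated injective -/
def Cosyz (A : Type) [Ring A] (M N : Type) [AddCommGroup M] [Module A M] [AddCommGroup N]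
    [Module A N] : Prop :=
  ∃ (I : ModuleCat.{0} A) (i : M →ₗ[A] I) (p : I →ₗ[A] N), Module.Injective A I ∧
    Module.Finite A I ∧ Function.Injective i ∧ Function.Surjective p ∧
    LinearMap.range i = LinearMap.ker p

/-- `M` has a direct summand which is generated by at most `d` elements and is not projective -/
def SmallNP (A : Type) [Ring A] (d : ℕ) (M : Type) [AddCommGroup M] [Module A M] : Prop :=
  ∃ W W' : Submodule A M, IsCompl W W' ∧ ¬ Module.Projective A W ∧
    ∃ f : (Fin d → A) →ₗ[A] W, Function.Surjective f

/-- `M` has a direct summand which is generated by at most `d` elements and is not injective -/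
def SmallNI (A : Type) [Ring A] (d : ℕ) (M : Type) [AddCommGroup M] [Module A M] : Prop :=
  ∃ W W' : Submodule A M, IsCompl W W' ∧ ¬ Module.Injective A W ∧
    ∃ f : (Fin d → A) →ₗ[A] W, Function.Surjective f

/-- `Ext^i(X, Y) = 0` for all `i ≥ 1` -/
def EVan (A : Type) [Ring A] [HasExt.{1} (ModuleCat.{0} A)] (X Y : ModuleCat.{0} A) : Prop :=
  ∀ i : ℕ, 1 ≤ i → Subsingleton (Abelian.Ext.{1} X Y i)

/-- `Ext^i(M, A) = 0` for all `i ≥ 1` and all finitely generated injective modules `M`, that is
`Ext^i(D(A), A) = 0` for all `i ≥ 1` -/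
def ExtVan (A : Type) [Ring A] [HasExt.{1} (ModuleCat.{0} A)] : Prop :=
  ∀ M : ModuleCat.{0} A, Module.Injective A M → Module.Finite A M →
    ∀ i : ℕ, 1 ≤ i → Subsingleton (Abelian.Ext.{1} M (ModuleCat.of A A) i)

/-- **Theorem.** Let `A` be a finite-dimensional algebra over a field `K`, and `d` a number.
(1) Let `Z 0, Z 1, …` be the syzygies in a projective resolution of a module `Z 0` with
`Ext^i(Z 0, Z 0) = 0 = Ext^i(Z 0, A)` for all `i ≥ 1`. Then only finitely many `Z n` have a
non-projective direct summand generated by `d` elements, and `Z 0` is projective if one `Z n` is.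
(2) Let `Z 0, Z 1, …` be the cosyzygies in an injective coresolution of a finitely generated module
`Z 0` with `Ext^i(Z 0, Z 0) = 0 = Ext^i(I, Z 0)` for all `i ≥ 1` and all finitely generated
injective `I`. Then only finitely many `Z n` have a non-injective direct summand generated by `d`
elements.
(3) Let `Ext^i(D(A), A) = 0` for all `i ≥ 1`. If infinitely many syzygies of `D(A)` are projective
or have a non-projective direct summand generated by `d` elements, then `A` is selfinjective. -/
theorem result (K A : Type) [Field K] [Ring A] [Algebra K A] [FiniteDimensional K A]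
    [HasExt.{1} (ModuleCat.{0} A)] (d : ℕ) :
    (∀ Z : ℕ → ModuleCat.{0} A, (∀ n, Syz A (Z n) (Z (n + 1))) → EVan A (Z 0) (Z 0) →
      EVan A (Z 0) (ModuleCat.of A A) → {n | SmallNP A d (Z n)}.Finite ∧
      ∀ n, Module.Projective A (Z n) → Module.Projective A (Z 0)) ∧
    (∀ Z : ℕ → ModuleCat.{0} A, (∀ n, Cosyz A (Z n) (Z (n + 1))) → EVan A (Z 0) (Z 0) →
      (∀ I : ModuleCat.{0} A, Module.Injective A I → Module.Finite A I → EVan A I (Z 0)) →
      {n | SmallNI A d (Z n)}.Finite) ∧
    (∀ Z : ℕ → ModuleCat.{0} A, (∀ n, Syz A (Z n) (Z (n + 1))) →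
      Nonempty (Z 0 ≃ₗ[A] NTC.DD K A) → ExtVan A →
      {n | Module.Projective A (Z n) ∨ SmallNP A d (Z n)}.Infinite → Module.Injective A A) := by
  have hArt : IsArtinianRing A := IsArtinianRing.of_finite K A
  refine ⟨?_, ?_, ?_⟩
  · intro Z hZ h1 h2
    exact ⟨RGS.finite_np K (Z := fun n => Z n) hZ h1 h2 d,
      fun n hn => RGS.proj_of_proj (Z := fun n => Z n) hZ h1 h2 n hn⟩
  · intro Z hZ h1 h2
    exact RGS.finite_ni K (Z := fun n => Z n) hZ h1
      (fun I _ _ hI hIf => h2 (ModuleCat.of A I) hI hIf) d
  · rintro Z hZ ⟨e⟩ hT hinf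
    have hinj : Module.Injective A (NTC.DD K A) := NTC.dd_injective
    have hfin : Module.Finite A (NTC.DD K A) := NTC.dd_finite inferInstance
    have hinj' : Module.Injective A (Z 0) :=
      (NTC.InAdd.of_retract e.toLinearMap e.symm.toLinearMap
        (LinearMap.ext fun x => e.symm_apply_apply x)).injective hinj
    have hfin' : Module.Finite A (Z 0) := Module.Finite.equiv e.symm
    have h1 : NTC.EV A (Z 0) (Z 0) := NTC.ev_of_injective hinj'
    have h2 : NTC.EV A (Z 0) A := fun i hi => hT (Z 0) hinj' hfin' i hi
    have h3 : Module.Projective A (Z 0) := by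
      by_contra hcon
      apply hinf
      refine (RGS.finite_np K (Z := fun n => Z n) hZ h1 h2 d).subset ?_
      rintro n (hn | hn)
      · exact absurd (RGS.proj_of_proj (Z := fun n => Z n) hZ h1 h2 n hn) hcon
      · exact hn
    exact RGS.injective_of_dd (K := K) inferInstance (Module.Projective.of_equiv e)

end Pool.Agent.Results.MP_68f647_al.SmallSummands
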