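import Pool.Agent.NOC.End
import Pool.Agent.NOC.Emb
import Pool.Agent.TQU.Defs
import Pool.Agent.TIF.Goal

/-!
# MP_17a657_ag (Tate conjecture for divisors): surfaces given by three conics

Let `f₀, f₁, f₂ ∈ k[x,y]` be of degree at most two and let `X` be the surface
`φ₁(z₁) f₀ = f₁`, `φ₂(z₂) f₀ = f₂`, where each `φⱼ` is a power `Zᴺ` or an additive polynomial: the
covers of the plane with group `μ_N × μ_N'` which are branched along three conics, and their
Artin-Schreier analogues. Then `V_ℓ Br(X k^s)^G` is a subgroup of the product of the corresponding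
groups of finitely many (one or three) surfaces `C₁ × C₂`, which do not depend on `ℓ`. So the Tate
conjecture for divisors for `X` follows from the one for products of two curves. If `k` is finite,
the latter is Tate's theorem, which is proved in the library `TIF`, and there is no hypothesis left.

Idea of the proof. Let `F = (f₀ : f₁ : f₂)`, a map of degree at most four of the `P`-plane to the
`u`-plane, and let `(P, z)` be a generic point of `X`, `u = F(P)`. A line `L` of the `P`-plane is
mapped to a line `ℓ` of the `u`-plane iff the restrictions of the `fᵢ` to `L` are linearly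
dependent; this is a cubic condition for the direction of a line through `P`, and the lines `L`
which satisfy it form a family with one parameter (the double cover of the discriminant cubic of the
net), or all lines satisfy it. (1) The cover `X → P²` is the pullback under `F` of an isogeny of the
group `G_m²` (or `G_m × G_a`, or `G_a²`) contained in the `u`-plane, and the lines `ℓ` are
translates of one line; so the restriction of the cover to `ℓ` is isotrivial: `z` and `u` are in a
field `K₁ K₂`, where `K₁` is a field of definition of `ℓ` and `K₂` is the function field of a curve. (2) If `L` is a line through `P` as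
above, the points of `F⁻¹(u)` on `L` are `P` and at most one other point `P₁` (otherwise all of `L`
is mapped to `u`). They are the roots of a quadratic equation over `K₁ K₂`, so the corestriction of
an invariant class `c` from `K₁ K₂ (P)` to `K₁ K₂` is `c + c^{t₁}`, where `t₁` maps `P` to `P₁` and
fixes `z`: it is an element of `V_ℓ Br(K₁ K₂ k^s)`. (3) Among the three lines through `P` there are
at least two different ones (here the Jacobian determinant is used: it does not vanish at `P` iff it
does not vanish at `P₁`, as these points are conjugate). So there is a line which contains no other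
point of `F⁻¹(u)`, and `c` itself is in `V_ℓ Br(K₁ K₂ k^s)`, or there are three points `P, P₁, P₂`
of `F⁻¹(u)` any two of which are on such a line, and `2 c = (c + c^{t₁}) + (c + c^{t₂}) -
(c^{t₁} + c^{t₂})`.
-/

namespace Pool.Agent.Results.MP_17a657_ag.ThreeConics

open Polynomial Pool.Agent.TQU Pool.Agent.NOC

theorem result (k M : Type) [Field k] [Field M] [Algebra k M] [IsAlgClosed M]
    (P : Fin 2 → M) (hP : AlgebraicIndependent k P)
    (f : Fin 3 → MvPolynomial (Fin 2) k) (hf : ∀ i, (f i).totalDegree ≤ 2)
    (y : Fin 2 → M)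
    (hyf : ∀ i, y i = MvPolynomial.aeval P (f i.succ) / MvPolynomial.aeval P (f 0))
    (hy : AlgebraicIndependent k y)
    (φ : Fin 2 → k[X]) (hφ : ∀ j, (∃ N, 0 < N ∧ φ j = X ^ N) ∨ (AddPoly (φ j) ∧ φ j ≠ 0))
    (z : Fin 2 → M) (hz : ∀ j, aeval (z j) (φ j) = y j)
    (K : IntermediateField k M)
    (hK : K = IntermediateField.adjoin k (Set.range P ∪ Set.range z))
    (hM : ∀ x : M, IsAlgebraic K x) :
    ∃ (m : ℕ) (K₁ K₂ : Fin m → IntermediateField k M),
      (∀ i, (K₁ i).FG ∧ (K₂ i).FG ∧ Algebra.trdeg k (K₁ i) ≤ 1 ∧ Algebra.trdeg k (K₂ i) ≤ 1 ∧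
        ∀ x : M, IsAlgebraic (K₁ i ⊔ K₂ i : IntermediateField k M) x) ∧
      ∀ ℓ : ℕ, ℓ.Prime → Embeds k ℓ K (fun i => K₁ i ⊔ K₂ i) ∧
        (Finite k → (ℓ : k) ≠ 0 → Pool.Agent.T1B.T1 k K ℓ) := by
  have : Infinite M := IsAlgClosed.instInfinite
  have _ := hP
  have hφ' : ∀ j, (∃ N, 0 < N ∧ φ j = X ^ N) ∨ ((∀ a b : M,
      aeval (a + b) (φ j) = aeval a (φ j) + aeval b (φ j)) ∧ φ j ≠ 0) := fun j => by
    rcases hφ j with h | ⟨h, h0⟩
    · exact Or.inl h
    · exact Or.inr ⟨fun a b => h M a b, h0⟩
  have halg : ∀ j, IsAlgebraic (IntermediateField.adjoin k (Set.range y)) (z j) := by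
    intro j
    have hdeg : 0 < (φ j).natDegree := by
      rcases hφ' j with ⟨N, hN, h⟩ | ⟨h, h0⟩
      · rw [h, natDegree_X_pow]
        exact hN
      · exact additive_natDegree h0 h
    have hyj : y j ∈ IntermediateField.adjoin k (Set.range y) :=
      IntermediateField.subset_adjoin k _ ⟨j, rfl⟩
    refine ⟨(φ j).map (algebraMap k (IntermediateField.adjoin k (Set.range y))) - C ⟨_, hyj⟩,
      ?_, ?_⟩
    · intro h
      have h1 : ((φ j).map (algebraMap k (IntermediateField.adjoin k (Set.range y)))).natDegree =
          0 := by rw [sub_eq_zero.1 h, natDegree_C]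
      rw [natDegree_map] at h1
      omega
    · rw [map_sub, aeval_map_algebraMap, aeval_C, hz j]
      exact sub_self _
  obtain ⟨m, K₁, K₂, h1, h2⟩ := final_set P f hf y hyf hy K z halg (isoC_powadd hy φ hφ' z hz) hK hM
  have h3 : ∀ ℓ : ℕ, ℓ.Prime → Embeds k ℓ K (fun i => K₁ i ⊔ K₂ i) := fun ℓ hℓ =>
    embeds_of_hom K (fun i => K₁ i ⊔ K₂ i) ℓ (h2 ℓ hℓ)
  exact ⟨m, K₁, K₂, h1, fun ℓ hℓ => ⟨h3 ℓ hℓ, fun hfin hk =>
    TIF.t1_of_embeds TIF.goal K hM K₁ K₂ h1 hℓ hk (h3 ℓ hℓ)⟩⟩

end Pool.Agent.Results.MP_17a657_ag.ThreeConics
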