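import Mathlib
import Pool.Agent.E2P.Z5

namespace Pool.Agent.Results.MP_2f88e5_nt.TwoPrimes

/-- For all `X ≥ 2`, `L ≥ 1`, `Z ≥ 1`, the number of the primes `p` in `[X, 2X]` for which fewer than
`c p / (Z (log p)²)` of the integers `1 ≤ k ≤ 2p/Z` prime to `p` are such that `2kp + 1` is a product
`l r` of two primes with `L ≤ l ≤ 2L` and `r ≥ p²/(4LZ)` is at most
`C (XZ/L + L⁴Z²X^(3/4)) (log X)^10`. -/
theorem result : ∃ C c : ℝ, 0 < C ∧ 0 < c ∧ ∀ X L Z : ℕ, 2 ≤ X → 1 ≤ L → 1 ≤ Z →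
    ({p : ℕ | p.Prime ∧ X ≤ p ∧ p ≤ 2 * X ∧
      ({k : ℕ | 1 ≤ k ∧ Z * k ≤ 2 * p ∧ ¬ p ∣ k ∧
        ∃ l r : ℕ, l.Prime ∧ r.Prime ∧ L ≤ l ∧ l ≤ 2 * L ∧ p ^ 2 ≤ 4 * L * Z * r ∧
          2 * k * p + 1 = l * r}.ncard : ℝ) < c * p / (Z * Real.log p ^ 2)}.ncard : ℝ) ≤
    C * (X * Z / L + L ^ 4 * Z ^ 2 * (X : ℝ) ^ (3 / 4 : ℝ)) * Real.log X ^ 10 := by
  classical
  obtain ⟨C, c, hC, hc, h⟩ := E2P.main
  refine ⟨C, c, hC, hc, fun X L Z hX hL hZ => ?_⟩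
  have h1 := h X L Z hX hL hZ
  refine le_trans (le_of_eq ?_) h1
  norm_cast
  rw [← Set.ncard_coe_finset]
  congr 1
  ext p
  simp only [Set.mem_ofPred_eq, Finset.coe_filter, Finset.mem_Icc, E2P.KK]
  tauto

end Pool.Agent.Results.MP_2f88e5_nt.TwoPrimes
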